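import Pool.Agent.U902.PT.Up3

set_option autoImplicit false

/-!
# Product target measures: the order of the discrepancy is maximal if and only if no marginal is discrete

Let `μ_1, …, μ_d` be ARBITRARY probability measures on `[0,1]` (with atoms, singular, …), `d ≥ 2`, and
`μ = μ_1 ⊗ ⋯ ⊗ μ_d`. The optimal `L_p` discrepancy `D(N; μ)_p` of `N` points with respect to the target
measure `μ` is the infimum over all `N`-point sets of the `L_p(μ)` norm of
`μ([0,x]) - (1/N) ∑_j χ_{[0,x]}(ξ_j)`; for `p = ∞` it is the star-discrepancy of the problem. If all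
`μ_i` are Lebesgue measure, its order is `(log N)^((d-1)/2) / N` for `p = 1` and `p = 2`.

**Theorem.**
1. `D(N; μ)_2 ≤ C (log N)^((d-1)/2) / N` for all `N ≥ 2` and all `μ`, where `C` depends only on `d`.
2. If no `μ_i` is purely atomic, then for every `K` there is `b > 0` such that for all large `N`, at most
   `K N` points and arbitrary real weights the discrepancy function is at least
   `b (log N)^((d-1)/2) / N` on a set of measure at least `κ ∏_i α_i`, where `κ > 0` depends only on `d`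
   and `α_i > 0` is the mass of the non-atomic part of `μ_i`.
3. If at least one `μ_i` is purely atomic, `D(N; μ)_2 = o((log N)^((d-1)/2) / N)`.
4. Hence `D(N; μ)_1` has the order `(log N)^((d-1)/2) / N` if and only if no `μ_i` is purely atomic.

So a single atomless part in every coordinate, however small its mass, produces the full order, and a
single purely atomic marginal destroys it, even if it has infinitely many atoms with slowly decreasing
masses which are dense in the interval and all the other marginals are Lebesgue measure.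

Proof (`Pool/Agent/U902/PT`). The quantile functions `Q_i` of the `μ_i` carry the uniform distribution
to `μ_i`. On the set `E` of the `u ∈ [0,1]^d` for which no `Q_i(u_i)` is an atom, which has measure
`∏ α_i`, the discrepancy function at `Q(u)` is the discrepancy function at `u` of weighted points (the
images of the points under the left limits of the distribution functions) with respect to the Lebesgue
measure, and the library theorem `TH635.NS.setm_weighted` on the discrepancy inside an arbitrary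
measurable set gives 2. For 1 it is used that the mean square over the digital shifts of a
`(0,n,d)`-net is small at EVERY corner, so that one may average with respect to any measure. For 3 one
needs more: the mean square is smaller, `O((log N)^(d-2))`, at the corners one coordinate of which is
`1`, and the discrepancy vanishes if one coordinate is `0`. A finite set of atoms of the purely atomic
marginal cuts the line into these atoms and finitely many gaps of small total mass; one takes the union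
of point sets for all the pieces, and a corner is in the interior of at most one gap.
-/

namespace Pool.Agent.Results.MP_507a17_nt.ProductTargets

open MeasureTheory ProbabilityTheory Filter Pool.Agent.U902.PT

/-- The local discrepancy `ρ([0,x]) - ∑_j λ_j χ_{[0,x]}(ξ_j)` of the points `ξ_j` with the weights `λ_j`
with respect to the target measure `ρ`. -/
noncomputable def localDisc {n d : ℕ} (lam : Fin n → ℝ) (ξ : Fin n → Fin d → ℝ)
    (ρ : Measure (Fin d → ℝ)) (x : Fin d → ℝ) : ℝ :=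
  (ρ (Set.Icc (0 : Fin d → ℝ) x)).toReal -
    ∑ j, lam j * (Set.Icc (0 : Fin d → ℝ) x).indicator (fun _ => (1 : ℝ)) (ξ j)

/-- `D(N; ρ)_p`: the infimum over all `N`-point sets in `[0,1]^d` (repetitions allowed) of the `L_p(ρ)`
norm of the local discrepancy with respect to `ρ` (all weights equal to `1 / N`). -/
noncomputable def optDisc (p : ENNReal) (N : ℕ) {d : ℕ} (ρ : Measure (Fin d → ℝ)) : ENNReal :=
  ⨅ (ξ : Fin N → Fin d → ℝ) (_ : ∀ j, ξ j ∈ Set.Icc (0 : Fin d → ℝ) 1),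
    eLpNorm (localDisc (fun _ => 1 / (N : ℝ)) ξ ρ) p ρ

/-- A probability measure on the line is purely atomic if the set of the points which are not atoms has
measure zero. -/
def PurelyAtomic (μ : Measure ℝ) : Prop := μ {x | μ {x} = 0} = 0

theorem localDisc_eq {n d : ℕ} (N : ℝ) (hN : 0 < N) (lam : Fin n → ℝ) (ξ : Fin n → Fin d → ℝ)
    (hξ : ∀ j, ξ j ∈ Set.Icc (0 : Fin d → ℝ) 1) (μ : Fin d → Measure ℝ)
    (hprob : ∀ i, IsProbabilityMeasure (μ i)) (hμ : ∀ i, μ i (Set.Icc (0 : ℝ) 1)ᶜ = 0)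
    (x : Fin d → ℝ) :
    localDisc lam ξ (Measure.pi μ) x = -(DP (fun j => N * lam j) ξ N μ x / N) := by
  classical
  have h1 : (Measure.pi μ (Set.Icc (0 : Fin d → ℝ) x)).toReal = ∏ i, cdf (μ i) (x i) := by
    rw [← Set.pi_univ_Icc, Measure.pi_pi, ENNReal.toReal_prod]
    apply Finset.prod_congr rfl
    intro i _
    rw [cdf_eq_real, measureReal_def]
    congr 1
    apply le_antisymm (measure_mono fun y hy => hy.2)
    calc μ i (Set.Iic (x i)) ≤ μ i (Set.Icc 0 (x i) ∪ (Set.Icc (0 : ℝ) 1)ᶜ) := by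
          apply measure_mono
          intro y hy
          by_cases h : y ∈ Set.Icc (0 : ℝ) 1
          · exact Or.inl ⟨h.1, hy⟩
          · exact Or.inr h
      _ ≤ μ i (Set.Icc 0 (x i)) + μ i (Set.Icc (0 : ℝ) 1)ᶜ := measure_union_le _ _
      _ = _ := by rw [hμ i, add_zero]; rfl
  have h2 : ∀ j, (Set.Icc (0 : Fin d → ℝ) x).indicator (fun _ => (1 : ℝ)) (ξ j) =
      if ∀ i, ξ j i ≤ x i then (1 : ℝ) else 0 := by
    intro j
    have hiff : ξ j ∈ Set.Icc (0 : Fin d → ℝ) x ↔ ∀ i, ξ j i ≤ x i :=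
      ⟨fun h => h.2, fun h => ⟨(hξ j).1, h⟩⟩
    by_cases hx : ∀ i, ξ j i ≤ x i
    · rw [if_pos hx, Set.indicator_of_mem (hiff.2 hx)]
    · rw [if_neg hx, Set.indicator_of_notMem (fun h => hx (hiff.1 h))]
  unfold localDisc DP
  rw [h1]
  simp only [h2]
  have h3 : ∑ j, (if ∀ i, ξ j i ≤ x i then N * lam j else 0) =
      N * ∑ j, lam j * (if ∀ i, ξ j i ≤ x i then (1 : ℝ) else 0) := by
    rw [Finset.mul_sum]
    apply Finset.sum_congr rfl
    intro j _
    split_ifs
    · ring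
    · ring
  rw [h3]
  field_simp
  ring

/-- from the integral of the square to the norm -/
theorem norm_le {n d' : ℕ} (N : ℕ) (hN : 2 ≤ N) (hn : n = N) (ξ : Fin n → Fin (d' + 1) → ℝ)
    (hξ : ∀ j i, ξ j i ∈ Set.Icc (0 : ℝ) 1) (μ : Fin (d' + 1) → Measure ℝ)
    (hprob : ∀ i, IsProbabilityMeasure (μ i)) (hμ : ∀ i, μ i (Set.Icc (0 : ℝ) 1)ᶜ = 0)
    (B : ℝ) (hB : 0 ≤ B)
    (h : ∫⁻ x, ENNReal.ofReal (DP (fun _ => 1) ξ n μ x ^ 2) ∂(Measure.pi μ) ≤
        ENNReal.ofReal (B * (Real.log N) ^ d')) :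
    optDisc 2 N (Measure.pi μ) ≤
      ENNReal.ofReal (Real.sqrt B * (Real.log N) ^ ((((d' + 1 : ℕ) : ℝ) - 1) / 2) / N) := by
  subst hn
  have hn0 : (0 : ℝ) < n := by exact_mod_cast (by omega : 0 < n)
  have hL : 0 ≤ Real.log n := Real.log_nonneg (by exact_mod_cast (by omega : 1 ≤ n))
  have hξ' : ∀ j, ξ j ∈ Set.Icc (0 : Fin (d' + 1) → ℝ) 1 := fun j =>
    ⟨fun i => (hξ j i).1, fun i => (hξ j i).2⟩
  refine (iInf₂_le ξ hξ').trans ?_
  set f := localDisc (fun _ => 1 / (n : ℝ)) ξ (Measure.pi μ) with hf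
  have hfx : ∀ x, f x ^ 2 = DP (fun _ => 1) ξ n μ x ^ 2 * (1 / (n : ℝ) ^ 2) := by
    intro x
    rw [hf, localDisc_eq n hn0 _ ξ hξ' μ hprob hμ]
    have : (fun _ : Fin n => (n : ℝ) * (1 / (n : ℝ))) = fun _ => 1 := by
      funext j
      field_simp
    rw [this]
    field_simp
  have h2 : eLpNorm f 2 (Measure.pi μ) ^ (2 : ℝ) = ∫⁻ x, ENNReal.ofReal (f x ^ 2) ∂Measure.pi μ := by
    have h3 := eLpNorm_nnreal_pow_eq_lintegral (f := f) (μ := Measure.pi μ) (p := 2) (by norm_num)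
    simp only [NNReal.coe_ofNat, ENNReal.coe_ofNat] at h3
    rw [h3]
    apply lintegral_congr
    intro x
    rw [Real.enorm_eq_ofReal_abs, ENNReal.ofReal_rpow_of_nonneg (abs_nonneg _) (by norm_num)]
    congr 1
    rw [Real.rpow_two, sq_abs]
  have h4 : eLpNorm f 2 (Measure.pi μ) ^ (2 : ℝ) ≤
      ENNReal.ofReal (Real.sqrt B * (Real.log n) ^ ((((d' + 1 : ℕ) : ℝ) - 1) / 2) / n) ^ (2 : ℝ) := by
    rw [h2, ENNReal.ofReal_rpow_of_nonneg (by positivity) (by norm_num)]
    have h5 : (Real.sqrt B * (Real.log n) ^ ((((d' + 1 : ℕ) : ℝ) - 1) / 2) / n) ^ (2 : ℝ) =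
        (B * (Real.log n) ^ d') * (1 / (n : ℝ) ^ 2) := by
      rw [Real.rpow_two, div_pow, mul_pow, Real.sq_sqrt hB, ← Real.rpow_natCast
        ((Real.log n) ^ ((((d' + 1 : ℕ) : ℝ) - 1) / 2)) 2, ← Real.rpow_mul hL]
      have : (((d' + 1 : ℕ) : ℝ) - 1) / 2 * ((2 : ℕ) : ℝ) = (d' : ℝ) := by
        push_cast
        ring
      rw [this, Real.rpow_natCast]
      ring
    rw [h5]
    simp only [hfx]
    calc ∫⁻ x, ENNReal.ofReal (DP (fun _ => 1) ξ n μ x ^ 2 * (1 / (n : ℝ) ^ 2)) ∂Measure.pi μ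
        = ∫⁻ x, ENNReal.ofReal (DP (fun _ => 1) ξ n μ x ^ 2) * ENNReal.ofReal (1 / (n : ℝ) ^ 2)
            ∂Measure.pi μ := by
          apply lintegral_congr
          intro x
          rw [ENNReal.ofReal_mul (sq_nonneg _)]
      _ = (∫⁻ x, ENNReal.ofReal (DP (fun _ => 1) ξ n μ x ^ 2) ∂Measure.pi μ) *
            ENNReal.ofReal (1 / (n : ℝ) ^ 2) :=
          lintegral_mul_const _ ((measurable_DP _ _ _ _).pow_const 2).ennreal_ofReal
      _ ≤ ENNReal.ofReal (B * (Real.log n) ^ d') * ENNReal.ofReal (1 / (n : ℝ) ^ 2) := by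
          gcongr
      _ = _ := (ENNReal.ofReal_mul (by positivity)).symm
  exact (ENNReal.rpow_le_rpow_iff (by norm_num : (0 : ℝ) < 2)).1 h4

/-- **Theorem.** Let `d ≥ 2`. There are `κ, C > 0` such that for all probability measures
`μ_1, …, μ_d` on `[0,1]`, with `μ = μ_1 ⊗ ⋯ ⊗ μ_d`:

1. `D(N; μ)_2 ≤ C (log N)^((d-1)/2) / N` for all `N ≥ 2`;
2. if no `μ_i` is purely atomic, then for every `K` there are `b > 0` and `N₀` such that for all
   `N ≥ N₀`, all `n ≤ K N`, all real weights and all `n` points of the cube the local discrepancy is at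
   least `b (log N)^((d-1)/2) / N` in absolute value on a set of `μ`-measure at least
   `κ ∏_i μ_i({x : μ_i({x}) = 0})`;
3. if some `μ_i` is purely atomic, then for every `ε > 0` and all large `N` the optimal `L_2`
   discrepancy `D(N; μ)_2` is at most `ε (log N)^((d-1)/2) / N`;
4. there is `c > 0` with `D(N; μ)_1 ≥ c (log N)^((d-1)/2) / N` for all large `N` if and only if no
   `μ_i` is purely atomic. -/
theorem result (d : ℕ) (hd : 2 ≤ d) : ∃ κ C : ℝ, 0 < κ ∧ 0 < C ∧ ∀ μ : Fin d → Measure ℝ,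
    (∀ i, IsProbabilityMeasure (μ i)) → (∀ i, μ i (Set.Icc (0 : ℝ) 1)ᶜ = 0) →
    (∀ N : ℕ, 2 ≤ N →
      optDisc 2 N (Measure.pi μ) ≤
        ENNReal.ofReal (C * (Real.log N) ^ (((d : ℝ) - 1) / 2) / N)) ∧
    ((∀ i, ¬ PurelyAtomic (μ i)) → ∀ K : ℝ, ∃ b : ℝ, 0 < b ∧ ∃ N₀ : ℕ, ∀ N : ℕ, N₀ ≤ N →
      ∀ n : ℕ, (n : ℝ) ≤ K * N → ∀ (lam : Fin n → ℝ) (ξ : Fin n → Fin d → ℝ),
        (∀ j, ξ j ∈ Set.Icc (0 : Fin d → ℝ) 1) →
        ENNReal.ofReal κ * ∏ i, μ i {x | μ i {x} = 0} ≤ Measure.pi μ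
          {x | b * (Real.log N) ^ (((d : ℝ) - 1) / 2) / N ≤ |localDisc lam ξ (Measure.pi μ) x|}) ∧
    ((∃ i, PurelyAtomic (μ i)) → ∀ ε : ℝ, 0 < ε → ∃ N₀ : ℕ, ∀ N : ℕ, N₀ ≤ N →
      optDisc 2 N (Measure.pi μ) ≤
        ENNReal.ofReal (ε * (Real.log N) ^ (((d : ℝ) - 1) / 2) / N)) ∧
    ((∃ c : ℝ, 0 < c ∧ ∃ N₀ : ℕ, ∀ N : ℕ, N₀ ≤ N →
        ENNReal.ofReal (c * (Real.log N) ^ (((d : ℝ) - 1) / 2) / N) ≤
          optDisc 1 N (Measure.pi μ)) ↔
      ∀ i, ¬ PurelyAtomic (μ i)) := by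
  classical
  obtain ⟨κ, hκ, HL⟩ := lower d (by omega)
  obtain ⟨d', rfl⟩ : ∃ d', d = d' + 1 := ⟨d - 1, by omega⟩
  have hd' : 1 ≤ d' := by omega
  obtain ⟨C, hC, HU⟩ := upper d' hd'
  refine ⟨κ, Real.sqrt C, hκ, Real.sqrt_pos.2 hC, ?_⟩
  intro μ hprob hμ
  have P1 : ∀ N : ℕ, 2 ≤ N → optDisc 2 N (Measure.pi μ) ≤
      ENNReal.ofReal (Real.sqrt C * (Real.log N) ^ ((((d' + 1 : ℕ) : ℝ) - 1) / 2) / N) := by
    intro N hN
    obtain ⟨ξ, hξ, hb⟩ := HU μ hprob hμ N hN
    exact norm_le N hN rfl ξ hξ μ hprob hμ C hC.le hb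
  have P2 : (∀ i, ¬ PurelyAtomic (μ i)) → ∀ K : ℝ, ∃ b : ℝ, 0 < b ∧ ∃ N₀ : ℕ, ∀ N : ℕ, N₀ ≤ N →
      ∀ n : ℕ, (n : ℝ) ≤ K * N → ∀ (lam : Fin n → ℝ) (ξ : Fin n → Fin (d' + 1) → ℝ),
        (∀ j, ξ j ∈ Set.Icc (0 : Fin (d' + 1) → ℝ) 1) →
        ENNReal.ofReal κ * ∏ i, μ i {x | μ i {x} = 0} ≤ Measure.pi μ
          {x | b * (Real.log N) ^ ((((d' + 1 : ℕ) : ℝ) - 1) / 2) / N ≤
            |localDisc lam ξ (Measure.pi μ) x|} := by
    intro hna K
    obtain ⟨b, hb, hev⟩ := HL μ hprob hμ (fun i => hna i) K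
    obtain ⟨N₁, hN₁⟩ := eventually_atTop.1
      ((tendsto_natCast_atTop_atTop (R := ℝ)).eventually hev)
    refine ⟨b, hb, max 1 N₁, fun N hN n hn lam ξ hξ => ?_⟩
    have hN0 : (0 : ℝ) < N := by
      have : 1 ≤ N := (le_max_left _ _).trans hN
      exact_mod_cast this
    refine (hN₁ N ((le_max_right _ _).trans hN) n hn (fun j => N * lam j) ξ).trans
      (measure_mono ?_)
    intro x hx
    show b * (Real.log N) ^ ((((d' + 1 : ℕ) : ℝ) - 1) / 2) / N ≤
      |localDisc lam ξ (Measure.pi μ) x|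
    rw [localDisc_eq N hN0 lam ξ hξ μ hprob hμ x, abs_neg, abs_div, abs_of_pos hN0]
    exact div_le_div_of_nonneg_right hx hN0.le
  have P3 : (∃ i, PurelyAtomic (μ i)) → ∀ ε : ℝ, 0 < ε → ∃ N₀ : ℕ, ∀ N : ℕ, N₀ ≤ N →
      optDisc 2 N (Measure.pi μ) ≤
        ENNReal.ofReal (ε * (Real.log N) ^ ((((d' + 1 : ℕ) : ℝ) - 1) / 2) / N) := by
    rintro ⟨i0, hi0⟩ ε hε
    obtain ⟨N₀, hN₀, H⟩ := small d' hd' μ hprob hμ i0 hi0 (ε ^ 2) (by positivity)
    refine ⟨N₀, fun N hN => ?_⟩
    obtain ⟨ξ, hξ, hb⟩ := H N hN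
    have := norm_le N (hN₀.trans hN) rfl ξ hξ μ hprob hμ (ε ^ 2) (by positivity) hb
    rwa [Real.sqrt_sq hε.le] at this
  refine ⟨P1, P2, P3, ?_, ?_⟩
  · rintro ⟨c, hc, N₀, hN₀⟩
    by_contra hcon
    push Not at hcon
    obtain ⟨N₁, hN₁⟩ := P3 hcon (c / 2) (by positivity)
    set N := max (max N₀ N₁) 2 with hNdef
    have hN2 : 2 ≤ N := le_max_right _ _
    have h1 := hN₀ N ((le_max_left _ _).trans (le_max_left _ _))
    have h2 := hN₁ N ((le_max_right _ _).trans (le_max_left _ _))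
    have h3 : optDisc 1 N (Measure.pi μ) ≤ optDisc 2 N (Measure.pi μ) := by
      unfold optDisc
      refine iInf₂_mono fun ξ hξ => ?_
      apply eLpNorm_le_eLpNorm_of_exponent_le (by norm_num)
      have hN0 : (0 : ℝ) < N := by exact_mod_cast (by omega : 0 < N)
      have : localDisc (fun _ => 1 / (N : ℝ)) ξ (Measure.pi μ) =
          fun x => -(DP (fun _ => N * (1 / (N : ℝ))) ξ N μ x / N) := by
        funext x
        exact localDisc_eq N hN0 _ ξ hξ μ hprob hμ x
      rw [this]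
      exact ((measurable_DP _ _ _ _).div_const _).neg.aestronglyMeasurable
    have h4 := (h1.trans h3).trans h2
    have hN0 : (0 : ℝ) < N := by exact_mod_cast (by omega : 0 < N)
    have hL : 0 < Real.log N := Real.log_pos (by exact_mod_cast (by omega : 1 < N))
    have hpos : 0 < (Real.log N) ^ ((((d' + 1 : ℕ) : ℝ) - 1) / 2) := Real.rpow_pos_of_pos hL _
    rw [ENNReal.ofReal_le_ofReal_iff (by positivity)] at h4
    have h5 : 0 < c * (Real.log N) ^ ((((d' + 1 : ℕ) : ℝ) - 1) / 2) / N := by positivity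
    have h6 : c / 2 * (Real.log N) ^ ((((d' + 1 : ℕ) : ℝ) - 1) / 2) / N =
        (c * (Real.log N) ^ ((((d' + 1 : ℕ) : ℝ) - 1) / 2) / N) / 2 := by ring
    rw [h6] at h4
    linarith
  · intro hna
    obtain ⟨b, hb, N₀, hN₀⟩ := P2 hna 1
    set A : ENNReal := ENNReal.ofReal κ * ∏ i, μ i {x | μ i {x} = 0} with hA
    have hA0 : A ≠ 0 := mul_ne_zero (ENNReal.ofReal_pos.2 hκ).ne'
      (Finset.prod_ne_zero_iff.2 fun i _ => hna i)
    have hAtop : A ≠ ⊤ := ENNReal.mul_ne_top ENNReal.ofReal_ne_top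
      (ENNReal.prod_ne_top fun i _ => measure_ne_top _ _)
    have hAr : 0 < A.toReal := ENNReal.toReal_pos hA0 hAtop
    refine ⟨b * A.toReal, by positivity, max N₀ 2, fun N hN => ?_⟩
    have hN0 : (0 : ℝ) < N := by
      have : 2 ≤ N := (le_max_right _ _).trans hN
      exact_mod_cast (by omega : 0 < N)
    unfold optDisc
    refine le_iInf₂ fun ξ hξ => ?_
    have h1 := hN₀ N ((le_max_left _ _).trans hN) N (by rw [one_mul]) (fun _ => 1 / (N : ℝ)) ξ hξ
    set f := localDisc (fun _ => 1 / (N : ℝ)) ξ (Measure.pi μ) with hf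
    set t : ℝ := b * (Real.log N) ^ ((((d' + 1 : ℕ) : ℝ) - 1) / 2) / N with ht
    have hL : 0 ≤ Real.log N := Real.log_nonneg (by
      have : 2 ≤ N := (le_max_right _ _).trans hN
      exact_mod_cast (by omega : 1 ≤ N))
    have ht0 : 0 ≤ t := by positivity
    rw [eLpNorm_one_eq_lintegral_enorm]
    have h2 : ENNReal.ofReal t * A ≤ ∫⁻ x, ‖f x‖ₑ ∂Measure.pi μ := by
      have h3 := mul_meas_ge_le_lintegral₀ (μ := Measure.pi μ) (f := fun x => ‖f x‖ₑ) (by
        have : f = fun x => -(DP (fun _ => N * (1 / (N : ℝ))) ξ N μ x / N) := by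
          funext x
          exact localDisc_eq N hN0 _ ξ hξ μ hprob hμ x
        rw [this]
        exact (((measurable_DP _ _ _ _).div_const _).neg.enorm).aemeasurable) (ENNReal.ofReal t)
      refine le_trans ?_ h3
      gcongr
      refine h1.trans (measure_mono ?_)
      intro x hx
      show ENNReal.ofReal t ≤ ‖f x‖ₑ
      rw [Real.enorm_eq_ofReal_abs]
      exact ENNReal.ofReal_le_ofReal hx
    refine le_trans (le_of_eq ?_) h2
    have h4 : b * A.toReal * (Real.log N) ^ ((((d' + 1 : ℕ) : ℝ) - 1) / 2) / N = t * A.toReal := by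
      rw [ht]
      ring
    rw [h4, ENNReal.ofReal_mul ht0, ENNReal.ofReal_toReal hAtop]

end Pool.Agent.Results.MP_507a17_nt.ProductTargets
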